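import Mathlib

/-! Definitions for the statement: the curve `c ∏ᵢ Lᵢ = 1`, `K_2 ⊗ ℚ` of a field and its integral
part, symbols of units and rational functions, the regulator along a loop. -/

namespace Pool.Agent.ISG

/-- The polynomial `c ∏ᵢ (α i 0 x₀ + α i 1 x₁ + β i) - 1`. -/
noncomputable def crvPoly {N : ℕ} (α : Fin N → Fin 2 → ℤ) (β : Fin N → ℤ) (c : ℤ) :
    MvPolynomial (Fin 2) ℚ :=
  MvPolynomial.C (c : ℚ) * ∏ i, (MvPolynomial.C (α i 0 : ℚ) * MvPolynomial.X 0 +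
    MvPolynomial.C (α i 1 : ℚ) * MvPolynomial.X 1 + MvPolynomial.C (β i : ℚ)) - 1

/-- The coordinate ring of the curve `c ∏ᵢ (α i 0 x₀ + α i 1 x₁ + β i) = 1`. -/
abbrev CrvRing {N : ℕ} (α : Fin N → Fin 2 → ℤ) (β : Fin N → ℤ) (c : ℤ) : Type :=
  MvPolynomial (Fin 2) ℚ ⧸ Ideal.span {crvPoly α β c}

/-- The function `a 0 x₀ + a 1 x₁ + e` on the curve. -/
noncomputable abbrev crvAff {N : ℕ} (α : Fin N → Fin 2 → ℤ) (β : Fin N → ℤ) (c : ℤ)
    (a : Fin 2 → ℤ) (e : ℤ) : CrvRing α β c :=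
  Ideal.Quotient.mk (Ideal.span {crvPoly α β c})
    (MvPolynomial.C (a 0 : ℚ) * MvPolynomial.X 0 + MvPolynomial.C (a 1 : ℚ) * MvPolynomial.X 1 +
      MvPolynomial.C (e : ℚ))

/-- The determinant of the linear parts of the lines `i` and `j`. -/
def lineDet {N : ℕ} (α : Fin N → Fin 2 → ℤ) (i j : Fin N) : ℤ := α i 0 * α j 1 - α i 1 * α j 0

/-- `P` is the common point of the lines `i`, `j`, which are not parallel. -/
def IsMeet {N : ℕ} (α : Fin N → Fin 2 → ℤ) (β : Fin N → ℤ) (i j : Fin N) (P : Fin 2 → ℚ) : Prop :=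
  lineDet α i j ≠ 0 ∧ (α i 0 : ℚ) * P 0 + (α i 1 : ℚ) * P 1 + (β i : ℚ) = 0 ∧
    (α j 0 : ℚ) * P 0 + (α j 1 : ℚ) * P 1 + (β j : ℚ) = 0

/-- The determinants of `a` with the lines divide `Δ`, and the linear form `a` takes different
values at different points of intersection. -/
def GenericForm {N : ℕ} (α : Fin N → Fin 2 → ℤ) (β : Fin N → ℤ) (Δ : ℤ) (a : Fin 2 → ℤ) :
    Prop :=
  (∀ j, a 0 * α j 1 - a 1 * α j 0 ∣ Δ) ∧
    ∀ P Q : Fin 2 → ℚ, (∃ i j, IsMeet α β i j P) → (∃ i j, IsMeet α β i j Q) →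
      (a 0 : ℚ) * P 0 + (a 1 : ℚ) * P 1 = (a 0 : ℚ) * Q 0 + (a 1 : ℚ) * Q 1 → P = Q

/-- The relations of `K_2 ⊗ ℚ` between pairs of elements: bilinearity and the Steinberg
relation. -/
noncomputable def k2Rel (K : Type) [Field K] : Submodule ℚ ((Fin 2 → Kˣ) →₀ ℚ) :=
  Submodule.span ℚ
    ({z | ∃ u v w : Kˣ, z = Finsupp.single ![u * v, w] 1 - Finsupp.single ![u, w] 1 -
        Finsupp.single ![v, w] 1} ∪
      {z | ∃ u v w : Kˣ, z = Finsupp.single ![w, u * v] 1 - Finsupp.single ![w, u] 1 -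
        Finsupp.single ![w, v] 1} ∪
      {z | ∃ u v : Kˣ, (u : K) + v = 1 ∧ z = Finsupp.single ![u, v] 1})

/-- `K_2(K) ⊗ ℚ`, by Matsumoto's theorem. -/
abbrev K2Q (K : Type) [Field K] : Type := ((Fin 2 → Kˣ) →₀ ℚ) ⧸ k2Rel K

/-- The symbol `{u, v}`. -/
noncomputable def sb {K : Type} [Field K] (u v : Kˣ) : K2Q K :=
  (k2Rel K).mkQ (Finsupp.single ![u, v] 1)

/-- The elements which for every discrete valuation ring `O` of `K` are combinations of symbols
of units of `O`. -/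
noncomputable def integralK2 (K : Type) [Field K] : Submodule ℚ (K2Q K) :=
  ⨅ (O : ValuationSubring K) (_ : IsDiscreteValuationRing O),
    Submodule.span ℚ {z | ∃ u v : Kˣ, u ∈ O.unitGroup ∧ v ∈ O.unitGroup ∧ z = sb u v}

/-- The units of `A`, in `K`. -/
def unitsIn (A K : Type) [CommRing A] [Field K] [Algebra A K] : Subgroup Kˣ :=
  (Units.map (algebraMap A K : A →* K)).range

/-- The group generated by the units of `A` and the non zero values at `x` of the polynomials with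
integral coefficients whose leading coefficient is at most `Λ` in absolute value (all polynomials
if `Λ` is infinite). -/
def ratGroup (A K : Type) [CommRing A] [Field K] [Algebra A K] (Λ : ℕ∞) (x : K) :
    Subgroup Kˣ :=
  unitsIn A K ⊔ Subgroup.closure {u | ∃ p : Polynomial ℤ,
    (p.leadingCoeff.natAbs : ℕ∞) ≤ Λ ∧ (u : K) = Polynomial.aeval x p}

/-- The integral elements of the span of the symbols with both entries in the units of `A`, or
both entries in `ratGroup A K Λ (x i)` for some `i`. -/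
noncomputable def ratPart (A K : Type) [CommRing A] [Field K] [Algebra A K] (Λ : ℕ∞) {t : ℕ}
    (x : Fin t → K) : Submodule ℚ (K2Q K) :=
  Submodule.span ℚ {z | ∃ u v : Kˣ, ((u ∈ unitsIn A K ∧ v ∈ unitsIn A K) ∨
    ∃ i, u ∈ ratGroup A K Λ (x i) ∧ v ∈ ratGroup A K Λ (x i)) ∧ z = sb u v} ⊓ integralK2 K

/-- `R` is the regulator along a loop: `R {u, v} = ∫ log|u| d arg v - log|v| d arg u` over a twice
continuously differentiable loop, given by the restriction of functions. -/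
def IsLoopRegulator {K : Type} [Field K] (R : K2Q K →ₗ[ℚ] ℝ) : Prop :=
  ∃ γ : K →+* (ℝ → ℂ), (∀ x, ContDiff ℝ 2 (γ x) ∧ Function.Periodic (γ x) (2 * Real.pi)) ∧
    ∀ u v : Kˣ, R (sb u v) = ∫ θ in (0 : ℝ)..(2 * Real.pi),
      (Real.log ‖γ u θ‖ * (deriv (γ v) θ / γ v θ).im -
        Real.log ‖γ v θ‖ * (deriv (γ u) θ / γ u θ).im)

/-- `ratPart` for the functions `a i 0 x₀ + a i 1 x₁ + e i` on the curve with function field `K`. -/
noncomputable def curvePart {N : ℕ} (α : Fin N → Fin 2 → ℤ) (β : Fin N → ℤ) (c : ℤ) (K : Type)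
    [Field K] [Algebra (CrvRing α β c) K] (Λ : ℕ∞) {t : ℕ} (a : Fin t → Fin 2 → ℤ)
    (e : Fin t → ℤ) : Submodule ℚ (K2Q K) :=
  ratPart (CrvRing α β c) K Λ fun i => algebraMap (CrvRing α β c) K (crvAff α β c (a i) (e i))

/-- The regulator is injective on `V ⊗ ℝ`, and finitely many loops suffice. -/
def RegulatorInjective {K : Type} [Field K] (V : Submodule ℚ (K2Q K)) : Prop :=
  ∃ (m : ℕ) (R : Fin m → (K2Q K →ₗ[ℚ] ℝ)), (∀ j, IsLoopRegulator (R j)) ∧
    ∀ (r : ℕ) (z : Fin r → V), LinearIndependent ℚ z → LinearIndependent ℝ fun k j => R j (z k)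

end Pool.Agent.ISG
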