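import Mathlib
import Pool.Agent.ISG.Defs
import Pool.Agent.ISF.RegL
import Pool.Agent.ISF.Fin2

/-! Comparison of the definitions of the statement with those of the proof. -/

namespace Pool.Agent.ISG

open Pool.Agent.Helper11 Pool.Agent.ISI

section k2

variable (K : Type) [Field K]

theorem k2Rel_eq : k2Rel K = milnorRel K 2 := by
  have hupd0 : ∀ (f : Fin 2 → Kˣ) (w : Kˣ), Function.update f 0 w = ![w, f 1] := by
    intro f w
    funext m
    fin_cases m <;> simp
  have hupd1 : ∀ (f : Fin 2 → Kˣ) (w : Kˣ), Function.update f 1 w = ![f 0, w] := by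
    intro f w
    funext m
    fin_cases m <;> simp
  have hf : ∀ f : Fin 2 → Kˣ, f = ![f 0, f 1] := by
    intro f
    funext m
    fin_cases m <;> rfl
  apply le_antisymm
  · unfold k2Rel
    rw [Submodule.span_le]
    rintro z ((⟨u, v, w, rfl⟩ | ⟨u, v, w, rfl⟩) | ⟨u, v, h, rfl⟩)
    · refine Submodule.subset_span (Or.inl ⟨![1, w], 0, u, v, ?_⟩)
      rw [hupd0, hupd0, hupd0]
      rfl
    · refine Submodule.subset_span (Or.inl ⟨![w, 1], 1, u, v, ?_⟩)
      rw [hupd1, hupd1, hupd1]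
      rfl
    · exact Submodule.subset_span (Or.inr ⟨![u, v], 0, 1, by decide, h, rfl⟩)
  · unfold milnorRel
    rw [Submodule.span_le]
    rintro z (⟨f, i, u, v, rfl⟩ | ⟨f, i, j, hij, h, rfl⟩)
    · fin_cases i
      · simp only [Fin.zero_eta, Fin.isValue, hupd0]
        exact Submodule.subset_span (Or.inl (Or.inl ⟨u, v, f 1, rfl⟩))
      · simp only [Fin.mk_one, Fin.isValue, hupd1]
        exact Submodule.subset_span (Or.inl (Or.inr ⟨u, v, f 0, rfl⟩))
    · refine Submodule.subset_span (Or.inr ⟨f 0, f 1, ?_, by rw [← hf f]⟩)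
      fin_cases i <;> fin_cases j
      · exact absurd rfl hij
      · exact h
      · rw [add_comm]
        exact h
      · exact absurd rfl hij

/-- the comparison isomorphism -/
noncomputable def eK : K2Q K ≃ₗ[ℚ] KMQ K 2 := Submodule.quotEquivOfEq _ _ (k2Rel_eq K)

variable {K}

theorem eK_sb (u v : Kˣ) : eK K (sb u v) = sy u v := rfl

theorem map_span (P : Kˣ → Kˣ → Prop) :
    (Submodule.span ℚ {z | ∃ u v : Kˣ, P u v ∧ z = sb u v}).map (eK K).toLinearMap =
      Submodule.span ℚ {z | ∃ u v : Kˣ, P u v ∧ z = sy u v} := by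
  rw [Submodule.map_span]
  congr 1
  ext z
  constructor
  · rintro ⟨y, ⟨u, v, h, rfl⟩, rfl⟩
    exact ⟨u, v, h, eK_sb u v⟩
  · rintro ⟨u, v, h, rfl⟩
    exact ⟨sb u v, ⟨u, v, h, rfl⟩, eK_sb u v⟩

theorem mem_span_iff (P : Kˣ → Kˣ → Prop) (z : K2Q K) :
    z ∈ Submodule.span ℚ {z | ∃ u v : Kˣ, P u v ∧ z = sb u v} ↔
      eK K z ∈ Submodule.span ℚ {z | ∃ u v : Kˣ, P u v ∧ z = sy u v} := by
  rw [← map_span]
  constructor
  · exact fun h => Submodule.mem_map_of_mem h
  · rintro ⟨y, hy, h⟩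
    have h1 : y = z := (eK K).injective h
    rw [← h1]
    exact hy

theorem mem_integral (z : K2Q K) : z ∈ integralK2 K ↔ eK K z ∈ integralM K 2 := by
  have h : ∀ O : ValuationSubring K, z ∈ Submodule.span ℚ
      {z | ∃ u v : Kˣ, u ∈ O.unitGroup ∧ v ∈ O.unitGroup ∧ z = sb u v} ↔
      eK K z ∈ unrM O 2 := by
    intro O
    have h1 := mem_span_iff (fun u v => u ∈ O.unitGroup ∧ v ∈ O.unitGroup) z
    have h2 : {z : K2Q K | ∃ u v : Kˣ, u ∈ O.unitGroup ∧ v ∈ O.unitGroup ∧ z = sb u v} =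
        {z | ∃ u v : Kˣ, (u ∈ O.unitGroup ∧ v ∈ O.unitGroup) ∧ z = sb u v} := by
      ext z
      simp only [and_assoc]
    have h3 : unrM O 2 = Submodule.span ℚ
        {z | ∃ u v : Kˣ, (u ∈ O.unitGroup ∧ v ∈ O.unitGroup) ∧ z = sy u v} := by
      unfold unrM
      congr 1
      ext z
      constructor
      · rintro ⟨f, hf, rfl⟩
        refine ⟨f 0, f 1, ⟨hf 0, hf 1⟩, ?_⟩
        change symM f = symM ![f 0, f 1]
        congr 1
        funext m
        fin_cases m <;> rfl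
      · rintro ⟨u, v, ⟨hu, hv⟩, rfl⟩
        refine ⟨![u, v], fun m => ?_, rfl⟩
        fin_cases m
        · exact hu
        · exact hv
    rw [h2, h3]
    exact h1
  unfold integralK2 integralM
  simp only [Submodule.mem_iInf]
  exact forall_congr' fun O => forall_congr' fun _ => h O

/-- the regulator along a loop -/
theorem isLoopRegulator {R : KMQ K 2 →ₗ[ℚ] ℝ} (hR : IsTorusRegulator (n := 1) R) :
    IsLoopRegulator (R ∘ₗ (eK K).toLinearMap) := by
  obtain ⟨γ, hγ⟩ := hR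
  have hdiff : ∀ x : K, ContDiff ℝ 2 (((γ x : TorusRing 1)) : (Fin 1 → ℝ) → ℂ) := fun x =>
    (γ x).2.1
  have hper : ∀ (x : K) (θ : Fin 1 → ℝ), ((γ x : TorusRing 1) : (Fin 1 → ℝ) → ℂ)
      (θ + Pi.single 0 (2 * Real.pi)) = ((γ x : TorusRing 1) : (Fin 1 → ℝ) → ℂ) θ := fun x θ =>
    (γ x).2.2 0 θ
  refine ⟨(RingHom.pi fun θ : ℝ => Pi.evalRingHom (fun _ : Fin 1 → ℝ => ℂ) (fun _ => θ)).comp
    ((TorusRing 1).subtype.comp γ), fun x => ⟨?_, ?_⟩, fun u v => ?_⟩
  · change ContDiff ℝ 2 (fun θ : ℝ => ((γ x : TorusRing 1) : (Fin 1 → ℝ) → ℂ) fun _ => θ)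
    exact (hdiff x).comp (contDiff_pi.2 fun _ => contDiff_id)
  · intro θ
    change ((γ x : TorusRing 1) : (Fin 1 → ℝ) → ℂ) (fun _ => θ + 2 * Real.pi) =
      ((γ x : TorusRing 1) : (Fin 1 → ℝ) → ℂ) fun _ => θ
    rw [← hper x fun _ => θ]
    refine congrArg ((γ x : TorusRing 1) : (Fin 1 → ℝ) → ℂ) ?_
    funext m
    have hm : m = 0 := Subsingleton.elim _ _
    subst hm
    simp
  · change R (sy u v) = _
    have h1 := hγ ![u, v]
    change R (sy u v) = _ at h1
    rw [h1, ISF.regTorus_one _ fun j => (hdiff _).differentiable (by norm_num)]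
    rfl

end k2

end Pool.Agent.ISG
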