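import Mathlib
import Pool.Agent.ISG.Bri

/-! The theorem, with the definitions of the statement. -/

namespace Pool.Agent.ISG

open Pool.Agent.Helper11 Pool.Agent.ISI

theorem range_eq (A K : Type) [CommRing A] [Field K] [Algebra A K] :
    LinearMap.range (KMQ.map (algebraMap A K) 2) = Submodule.span ℚ
      {z | ∃ u v : Kˣ, (u ∈ unitsIn A K ∧ v ∈ unitsIn A K) ∧ z = sy u v} := by
  apply le_antisymm
  · rintro z ⟨w, rfl⟩
    have hw := mem_span_symM w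
    induction hw using Submodule.span_induction with
    | mem w hw =>
      obtain ⟨f, rfl⟩ := hw
      rw [KMQ.map_symM]
      refine Submodule.subset_span ⟨Units.map (algebraMap A K : A →* K) (f 0),
        Units.map (algebraMap A K : A →* K) (f 1), ⟨⟨_, rfl⟩, ⟨_, rfl⟩⟩, ?_⟩
      change symM _ = symM _
      congr 1
      funext m
      fin_cases m <;> rfl
    | zero => rw [map_zero]; exact Submodule.zero_mem _
    | add x y _ _ h1 h2 => rw [map_add]; exact Submodule.add_mem _ h1 h2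
    | smul r x _ h1 => rw [map_smul]; exact Submodule.smul_mem _ _ h1
  · rw [Submodule.span_le]
    rintro z ⟨u, v, ⟨⟨f, rfl⟩, ⟨g, rfl⟩⟩, rfl⟩
    refine ⟨symM ![f, g], ?_⟩
    rw [KMQ.map_symM]
    change symM _ = symM _
    congr 1
    funext m
    fin_cases m <;> rfl

theorem part_map (A K : Type) [CommRing A] [Field K] [Algebra A K] (Λ : ℕ∞) {t : ℕ}
    (x : Fin t → K)
    (h : ISF.ratPart A K Λ x ≤ LinearMap.range (KMQ.map (algebraMap A K) 2)) :
    (ratPart A K Λ x).map (eK K).toLinearMap =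
      LinearMap.range (KMQ.map (algebraMap A K) 2) ⊓ integralM K 2 := by
  set P : Kˣ → Kˣ → Prop := fun u v => (u ∈ unitsIn A K ∧ v ∈ unitsIn A K) ∨
    ∃ i, u ∈ ratGroup A K Λ (x i) ∧ v ∈ ratGroup A K Λ (x i) with hP
  have hgrp : ∀ i, ratGroup A K Λ (x i) ≤ ISF.ratGroup A K Λ (x i) := by
    intro i
    refine sup_le ?_ (Subgroup.closure_mono fun u hu => Or.inr hu)
    rintro u ⟨f, rfl⟩
    exact Subgroup.subset_closure (Or.inl ⟨f, rfl⟩)
  apply le_antisymm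
  · rintro y ⟨z, ⟨hz1, hz2⟩, rfl⟩
    have h2 : eK K z ∈ integralM K 2 := (mem_integral z).1 hz2
    refine ⟨h ⟨?_, h2⟩, h2⟩
    have h3 : eK K z ∈ Submodule.span ℚ {z | ∃ u v : Kˣ, P u v ∧ z = sy u v} :=
      (mem_span_iff P z).1 hz1
    refine (Submodule.span_le.2 ?_) h3
    rintro w ⟨u, v, huv | ⟨i, hu, hv⟩, rfl⟩
    · refine Submodule.mem_sup_left ?_
      rw [range_eq]
      exact Submodule.subset_span ⟨u, v, huv, rfl⟩
    · refine Submodule.mem_sup_right (Submodule.mem_iSup_of_mem i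
        (Submodule.subset_span ⟨![u, v], fun j => ?_, rfl⟩))
      fin_cases j
      · exact hgrp i hu
      · exact hgrp i hv
  · rintro y ⟨hy1, hy2⟩
    refine ⟨(eK K).symm y, ⟨?_, ?_⟩, (eK K).apply_symm_apply y⟩
    · refine (mem_span_iff P _).2 ?_
      rw [LinearEquiv.apply_symm_apply]
      rw [range_eq] at hy1
      refine (Submodule.span_mono ?_) hy1
      rintro w ⟨u, v, huv, rfl⟩
      exact ⟨u, v, Or.inl huv, rfl⟩
    · change (eK K).symm y ∈ integralK2 K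
      rw [mem_integral, LinearEquiv.apply_symm_apply]
      exact hy2

theorem transfer {K : Type} [Field K] {V : Submodule ℚ (K2Q K)} {U : Submodule ℚ (KMQ K 2)}
    (hV : V.map (eK K).toLinearMap = U) {g : ℕ} (h1 : Module.rank ℚ U = g) {ι : Type}
    [Fintype ι] (R : ι → KMQ K 2 →ₗ[ℚ] ℝ) (hR : ∀ J, IsTorusRegulator (n := 1) (R J))
    (h2 : ∀ (r : ℕ) (z : Fin r → U), LinearIndependent ℚ z →
      LinearIndependent ℝ fun a J => R J (z a)) :
    Module.rank ℚ V = g ∧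
      ∃ (m : ℕ) (R' : Fin m → (K2Q K →ₗ[ℚ] ℝ)), (∀ j, IsLoopRegulator (R' j)) ∧
        ∀ (r : ℕ) (z : Fin r → V),
          LinearIndependent ℚ z → LinearIndependent ℝ fun k j => R' j (z k) := by
  subst hV
  have e : V ≃ₗ[ℚ] V.map (eK K).toLinearMap := (eK K).submoduleMap V
  refine ⟨by rw [((eK K).submoduleMap V).rank_eq, h1], Fintype.card ι,
    fun j => R ((Fintype.equivFin ι).symm j) ∘ₗ (eK K).toLinearMap,
    fun j => isLoopRegulator (hR _), ?_⟩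
  intro r z hz
  have h3 := h2 r (fun k => (eK K).submoduleMap V (z k))
    (hz.map' ((eK K).submoduleMap V).toLinearMap (LinearEquiv.ker _))
  rw [Fintype.linearIndependent_iff] at h3 ⊢
  intro y hy
  refine h3 y ?_
  funext J
  have h4 := congrFun hy ((Fintype.equivFin ι) J)
  simp only [Finset.sum_apply, Pi.smul_apply, LinearMap.comp_apply, Equiv.symm_apply_apply]
    at h4 ⊢
  exact h4

section arrangement

variable {N : ℕ} {α : Fin N → Fin 2 → ℤ} {β : Fin N → ℤ}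

theorem det_eq (i j : Fin N) : hypDet α ![i, j] = lineDet α i j := dt_eq i j

theorem det_eq' (J : Fin 2 → Fin N) : hypDet α J = lineDet α (J 0) (J 1) := by
  have h : J = ![J 0, J 1] := by
    funext m
    fin_cases m <;> rfl
  rw [h]
  exact det_eq _ _

theorem exists_meet {i j : Fin N} (hij : lineDet α i j ≠ 0) :
    ∃ P : Fin 2 → ℚ, IsMeet α β i j P ∧ ∀ k, (lineDet α i j : ℚ) *
      ((α k 0 : ℚ) * P 0 + (α k 1 : ℚ) * P 1 + (β k : ℚ)) = hypVal α β ![i, j] k := by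
  have hq : ((lineDet α i j : ℤ) : ℚ) ≠ 0 := by exact_mod_cast hij
  refine ⟨![((α i 1 * β j - α j 1 * β i : ℤ) : ℚ) / (lineDet α i j : ℤ),
    ((α j 0 * β i - α i 0 * β j : ℤ) : ℚ) / (lineDet α i j : ℤ)], ⟨hij, ?_, ?_⟩, ?_⟩
  · simp only [Matrix.cons_val_zero, Matrix.cons_val_one]
    field_simp
    unfold lineDet
    push_cast
    ring
  · simp only [Matrix.cons_val_zero, Matrix.cons_val_one]
    field_simp
    unfold lineDet
    push_cast
    ring
  · intro k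
    rw [hypVal_pair, dt_eq, dt_eq, dt_eq]
    simp only [Matrix.cons_val_zero, Matrix.cons_val_one]
    field_simp
    unfold lineDet
    push_cast
    ring

theorem gp_val (hgp : ∀ i j k P, IsMeet α β i j P →
      (α k 0 : ℚ) * P 0 + (α k 1 : ℚ) * P 1 + (β k : ℚ) = 0 → k = i ∨ k = j)
    (J : Fin 2 → Fin N) (k : Fin N) (hJ : hypDet α J ≠ 0) (hk : ∀ m, J m ≠ k) :
    hypVal α β J k ≠ 0 := by
  intro h0
  have h : J = ![J 0, J 1] := by
    funext m
    fin_cases m <;> rfl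
  rw [det_eq'] at hJ
  obtain ⟨P, hP, hval⟩ := exists_meet (β := β) hJ
  have h1 := hval k
  rw [← h, h0, Int.cast_zero] at h1
  have h2 := (mul_eq_zero.1 h1).resolve_left (by exact_mod_cast hJ)
  rcases hgp _ _ k P hP h2 with h3 | h3
  · exact hk 0 h3.symm
  · exact hk 1 h3.symm

theorem generic {Δ : ℤ} {a : Fin 2 → ℤ} (h : GenericForm α β Δ a) :
    ISF.GenericForm α β Δ a := by
  refine ⟨h.1, fun P Q hP hQ => h.2 P Q ?_ ?_⟩
  · obtain ⟨i, j, h1, h2, h3⟩ := hP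
    exact ⟨i, j, by rwa [det_eq] at h1, h2, h3⟩
  · obtain ⟨i, j, h1, h2, h3⟩ := hQ
    exact ⟨i, j, by rwa [det_eq] at h1, h2, h3⟩

theorem crvPoly_eq (α : Fin N → Fin 2 → ℤ) (β : Fin N → ℤ) (c : ℤ) :
    crvPoly α β c = MvPolynomial.map (Int.castRingHom ℚ) (hypPoly (n := 1) α β c) := by
  have hC : ∀ k : ℤ, (MvPolynomial.map (Int.castRingHom ℚ)) (MvPolynomial.C k) =
      (MvPolynomial.C (k : ℚ) : MvPolynomial (Fin (1 + 1)) ℚ) := by
    intro k
    rw [MvPolynomial.map_C]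
    rfl
  unfold crvPoly hypPoly hypLin
  rw [map_sub, map_mul, map_prod, map_one, hC]
  congr 2
  refine Finset.prod_congr rfl fun i _ => ?_
  rw [map_add, map_sum, hC, Fin.sum_univ_two, map_mul, map_mul, hC, hC, MvPolynomial.map_X,
    MvPolynomial.map_X]

end arrangement

/-- the theorem for the ring of the proof -/
theorem main_hyp (N : ℕ) (hN : 0 < N) (α : Fin N → Fin 2 → ℤ) (β : Fin N → ℤ) (c Δ : ℤ)
    (hrk : ∀ i, ∃ j, lineDet α i j ≠ 0)
    (hgp : ∀ i j k P, IsMeet α β i j P →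
      (α k 0 : ℚ) * P 0 + (α k 1 : ℚ) * P 1 + (β k : ℚ) = 0 → k = i ∨ k = j)
    (hΔ0 : Δ ≠ 0) (hΔ : ∀ i j, lineDet α i j ≠ 0 → lineDet α i j ∣ Δ) (hΔc : Δ ^ (N + 1) ∣ c)
    (hc : (400 * N ^ 3) ^ 2 * |Δ| ^ (N + 1) ≤ |c|) (g : ℕ)
    (hg : g + N = Fintype.card {e : Fin N × Fin N // e.1 < e.2 ∧ lineDet α e.1 e.2 ≠ 0} + 1)
    (t : ℕ) (a : Fin t → Fin 2 → ℤ) (e : Fin t → ℤ) (ha : ∀ i, a i ≠ 0)
    (hpar : ∀ i j, i ≠ j → a i 0 * a j 1 - a i 1 * a j 0 ≠ 0) (M : ℕ) (Λ : ℕ∞) (hΛ : Λ ≠ 0)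
    (hα : ∀ i m, |α i m| ≤ M) (hβ : ∀ i, |β i| ≤ M) (haM : ∀ i m, |a i m| ≤ M)
    (heM : ∀ i, |e i| ≤ M)
    (hM : t ≠ 0 → (∃ L : ℕ, Λ = L ∧ (10 * M * L : ℤ) ^ (10 * N ^ 3) ≤ |c|) ∨
      t = 1 ∧ 3 ≤ N ∧ |Δ| ^ 12 * (10 * M : ℤ) ^ (30 * N ^ 3) ≤ |c| ∧
        ∀ i, GenericForm α β Δ (a i)) :
    IsDomain (HypRingQ (n := 1) α β c) ∧
    ∀ (K : Type) [Field K] [Algebra (HypRingQ (n := 1) α β c) K]
      [IsFractionRing (HypRingQ (n := 1) α β c) K],
      Module.rank ℚ (ratPart (HypRingQ (n := 1) α β c) K Λ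
        fun i => algebraMap (HypRingQ (n := 1) α β c) K (affFun α β c (a i) (e i))) = g ∧
      ∃ (m : ℕ) (R : Fin m → (K2Q K →ₗ[ℚ] ℝ)), (∀ j, IsLoopRegulator (R j)) ∧
        ∀ (r : ℕ) (z : Fin r → ratPart (HypRingQ (n := 1) α β c) K Λ
            fun i => algebraMap (HypRingQ (n := 1) α β c) K (affFun α β c (a i) (e i))),
          LinearIndependent ℚ z → LinearIndependent ℝ fun k j => R j (z k) := by
  have hrk' : ∀ i, ∃ j, hypDet α ![i, j] ≠ 0 := by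
    intro i
    obtain ⟨j, hj⟩ := hrk i
    exact ⟨j, by rwa [det_eq]⟩
  have hgp' := gp_val hgp
  have hΔ' : ∀ J : Fin 2 → Fin N, hypDet α J ≠ 0 → hypDet α J ∣ Δ := by
    intro J hJ
    rw [det_eq'] at hJ ⊢
    exact hΔ _ _ hJ
  have hg' : g + N = Fintype.card (CEdge α) + 1 := by
    rw [hg]
    congr 1
    refine Fintype.card_congr (Equiv.subtypeEquivRight fun e => ?_)
    rw [← det_eq]
  have hc0 : c ≠ 0 := by
    rintro rfl
    have h1 : (0 : ℤ) < (400 * N ^ 3) ^ 2 * |Δ| ^ (N + 1) := by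
      have h2 : (0 : ℤ) < |Δ| := abs_pos.2 hΔ0
      have h3 : (0 : ℤ) < N := by exact_mod_cast hN
      positivity
    rw [abs_zero] at hc
    omega
  refine ⟨isDomain_hypRingQ hrk' hgp' hN hc0, ?_⟩
  intro K _ _ _
  have hchar : CharZero K := charZero_of_crv (α := α) (β := β) (c := c)
  have hG : Good α β c := ⟨hN, hrk', hgp', hc0⟩
  obtain ⟨h1, R, hR, h2⟩ := crv_main hrk' hN hgp' hΔ0 hΔ' hΔc hc hg' (K := K)
  refine transfer (part_map _ K Λ _ ?_) h1 R hR h2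
  rcases Nat.eq_zero_or_pos t with h0 | h0
  · subst h0
    refine inf_le_left.trans ?_
    rw [iSup_of_empty, sup_bot_eq]
  · have hM1 : 1 ≤ M := by
      have h1 : α ⟨0, hN⟩ ≠ 0 := by
        intro h2
        obtain ⟨j, hj⟩ := hrk' ⟨0, hN⟩
        apply hj
        rw [dt_eq, h2]
        simp
      obtain ⟨m, hm⟩ := Function.ne_iff.1 h1
      have h3 := hα ⟨0, hN⟩ m
      have h4 : (1 : ℤ) ≤ |α ⟨0, hN⟩ m| := Int.one_le_abs hm
      have h5 : (1 : ℤ) ≤ M := h4.trans h3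
      exact_mod_cast h5
    refine ISF.rat_le hG hΔ0 hΔ' hΔc h0.ne' hΛ hM1 hα hβ (fun i => ⟨ha i, haM i, heM i⟩) hpar
      ?_ (K := K)
    rcases hM h0.ne' with h | ⟨h3, h4, h5, h6⟩
    · exact Or.inl h
    · exact Or.inr ⟨h3, h4, h5, fun i => generic (h6 i)⟩

/-- change of the presentation of the ring -/
theorem gen {N : ℕ} {α : Fin N → Fin 2 → ℤ} {β : Fin N → ℤ} {c : ℤ} {t : ℕ}
    {a : Fin t → Fin 2 → ℤ} {e : Fin t → ℤ} {g : ℕ} {Λ : ℕ∞} (f : MvPolynomial (Fin 2) ℚ)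
    (hf : f = MvPolynomial.map (Int.castRingHom ℚ) (hypPoly (n := 1) α β c))
    (h : IsDomain (HypRingQ (n := 1) α β c) ∧
    ∀ (K : Type) [Field K] [Algebra (HypRingQ (n := 1) α β c) K]
      [IsFractionRing (HypRingQ (n := 1) α β c) K],
      Module.rank ℚ (ratPart (HypRingQ (n := 1) α β c) K Λ
        fun i => algebraMap (HypRingQ (n := 1) α β c) K (affFun α β c (a i) (e i))) = g ∧
      ∃ (m : ℕ) (R : Fin m → (K2Q K →ₗ[ℚ] ℝ)), (∀ j, IsLoopRegulator (R j)) ∧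
        ∀ (r : ℕ) (z : Fin r → ratPart (HypRingQ (n := 1) α β c) K Λ
            fun i => algebraMap (HypRingQ (n := 1) α β c) K (affFun α β c (a i) (e i))),
          LinearIndependent ℚ z → LinearIndependent ℝ fun k j => R j (z k)) :
   IsDomain (MvPolynomial (Fin 2) ℚ ⧸ Ideal.span {f}) ∧
    ∀ (K : Type) [Field K] [Algebra (MvPolynomial (Fin 2) ℚ ⧸ Ideal.span {f}) K]
      [IsFractionRing (MvPolynomial (Fin 2) ℚ ⧸ Ideal.span {f}) K],
      Module.rank ℚ (ratPart (MvPolynomial (Fin 2) ℚ ⧸ Ideal.span {f}) K Λ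
        fun i => algebraMap (MvPolynomial (Fin 2) ℚ ⧸ Ideal.span {f}) K
          (Ideal.Quotient.mk (Ideal.span {f})
    (MvPolynomial.C (a i 0 : ℚ) * MvPolynomial.X 0 + MvPolynomial.C (a i 1 : ℚ) * MvPolynomial.X 1 +
      MvPolynomial.C (e i : ℚ)))) = g ∧
      ∃ (m : ℕ) (R : Fin m → (K2Q K →ₗ[ℚ] ℝ)), (∀ j, IsLoopRegulator (R j)) ∧
        ∀ (r : ℕ) (z : Fin r → ratPart (MvPolynomial (Fin 2) ℚ ⧸ Ideal.span {f}) K Λ
            fun i => algebraMap (MvPolynomial (Fin 2) ℚ ⧸ Ideal.span {f}) K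
              (Ideal.Quotient.mk (Ideal.span {f})
    (MvPolynomial.C (a i 0 : ℚ) * MvPolynomial.X 0 + MvPolynomial.C (a i 1 : ℚ) * MvPolynomial.X 1 +
      MvPolynomial.C (e i : ℚ)))),
          LinearIndependent ℚ z → LinearIndependent ℝ fun k j => R j (z k) := by
  subst hf
  exact h

end Pool.Agent.ISG
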